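import Mathlib
import Pool.Agent.Helper793_Bricks.Tri

set_option autoImplicit false

open CategoryTheory Pool.Agent.Helper793Bricks

namespace Pool.Agent.Results.MP_a7c6c4_al.BrickTrichotomy

universe u v

/-- Let `R` be any ring and `n` a natural number or `∞`. If there are infinitely many pairwise
non-isomorphic bricks of finite length at most `n`, then there is an infinite sequence of bricks
`M i` of finite length at most `n` such that either all `M i` have the same length and are pairwise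
Hom-orthogonal, or the lengths are strictly increasing and one of the following holds: the `M i`
are pairwise Hom-orthogonal; or for all `i < j` there is a monomorphism `M i → M j` and
`Hom(M j, M i) = 0`; or for all `i < j` there is an epimorphism `M j → M i` and
`Hom(M i, M j) = 0`. For finite `n` the second alternative is impossible. -/
theorem result :
    ∀ (R : Type u) [Ring R] (n : ℕ∞),
      (∃ M : ℕ → ModuleCat.{v} R,
          (∀ i, Module.length R (M i) ≠ ⊤ ∧ Module.length R (M i) ≤ n ∧ Nontrivial (M i) ∧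
              ∀ f : M i ⟶ M i, f ≠ 0 → IsIso f) ∧
          ∀ i j, i ≠ j → IsEmpty (M i ≅ M j)) →
      ∃ M : ℕ → ModuleCat.{v} R,
          (∀ i, Module.length R (M i) ≠ ⊤ ∧ Module.length R (M i) ≤ n ∧ Nontrivial (M i) ∧
              ∀ f : M i ⟶ M i, f ≠ 0 → IsIso f) ∧
          (((∀ i j, Module.length R (M i) = Module.length R (M j)) ∧
              ∀ i j, i ≠ j → ∀ f : M i ⟶ M j, f = 0) ∨
            ((∀ i j, i < j → Module.length R (M i) < Module.length R (M j)) ∧
              ((∀ i j, i ≠ j → ∀ f : M i ⟶ M j, f = 0) ∨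
                (∀ i j, i < j → (∃ f : M i ⟶ M j, Mono f) ∧ ∀ f : M j ⟶ M i, f = 0) ∨
                (∀ i j, i < j → (∃ f : M j ⟶ M i, Epi f) ∧ ∀ f : M i ⟶ M j, f = 0)))) := by
  intro R _ n ⟨M, hM, hni⟩
  have hinf := brLe_infinite n M (fun i => (isBrick_iff (M i)).mpr (hM i).2.2)
    (fun i => (hM i).1) (fun i => (hM i).2.1)
    (fun i j hij => not_equiv_of_isEmpty (hni i j hij))
  obtain ⟨N, hN1, hN2⟩ := brick_trichotomy n hinf
  refine ⟨N, fun i => ⟨(hN1 i).2.1, (hN1 i).2.2, (isBrick_iff (N i)).mp (hN1 i).1⟩, ?_⟩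
  rcases hN2 with ⟨h1, h2⟩ | ⟨h1, h2⟩
  · exact Or.inl ⟨h1, fun i j hij f => hom_eq_zero (h2 i j hij) f⟩
  refine Or.inr ⟨h1, ?_⟩
  rcases h2 with h2 | h2 | h2
  · exact Or.inl fun i j hij f => hom_eq_zero (h2 i j hij) f
  · refine Or.inr (Or.inl fun i j hij => ?_)
    obtain ⟨⟨f, hf⟩, h3⟩ := h2 i j hij
    exact ⟨⟨ModuleCat.ofHom f, (ModuleCat.mono_iff_injective _).mpr hf⟩,
      fun g => hom_eq_zero h3 g⟩
  · refine Or.inr (Or.inr fun i j hij => ?_)
    obtain ⟨⟨f, hf⟩, h3⟩ := h2 i j hij
    exact ⟨⟨ModuleCat.ofHom f, (ModuleCat.epi_iff_surjective _).mpr hf⟩,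
      fun g => hom_eq_zero h3 g⟩

end Pool.Agent.Results.MP_a7c6c4_al.BrickTrichotomy
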