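import Mathlib
import Pool.Agent.Helper793_Bricks.DioFan
import Pool.Agent.Helper793_Bricks.Cat

set_option autoImplicit false

open CategoryTheory Pool.Agent.Helper391_TT Pool.Agent.Helper793Bricks

namespace Pool.Agent.Results.MP_a7c6c4_al.DiophantineAnyField

/-- Let `A` be a finite-dimensional algebra over an arbitrary field, of any rank. If a real vector
`θ` outside the `g`-vector fan is well approximable, in the sense that for some constant `C` there
are arbitrarily large real numbers `t` and lattice points `p` with `|t * θ i - p i| ≤ C / t` for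
all `i` (this holds for lattice points and, more generally, for all real linear combinations of two
lattice points), then there is an infinite sequence of finitely generated bricks with all
homomorphisms between distinct members zero. -/
theorem result :
    ∀ (K : Type) [Field K] (A : Type) [Ring A] [Algebra K A] [FiniteDimensional K A]
      (ι : Type) [Fintype ι] (B : ProjBasis K A ι) (θ : ι → ℝ), θ ∉ B.gFan →
      (∃ C : ℝ, ∀ T : ℝ, ∃ t : ℝ, T < t ∧ ∃ p : ι → ℤ, ∀ i, |t * θ i - p i| ≤ C / t) →
      ∃ M : ℕ → ModuleCat.{0} A,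
          (∀ i, Module.Finite A (M i) ∧ Nontrivial (M i) ∧
              ∀ f : M i ⟶ M i, f ≠ 0 → IsIso f) ∧
          ∀ i j, i ≠ j → ∀ f : M i ⟶ M j, f = 0 := by
  intro K _ A _ _ _ ι _ B θ hθ ⟨C, h⟩
  obtain ⟨M, hM, hM0⟩ := fan_approx B θ hθ C h
  exact ⟨M, fun i => ⟨(hM i).1, (isBrick_iff (M i)).mp (hM i).2⟩,
    fun i j hij f => hom_eq_zero (hM0 i j hij) f⟩

end Pool.Agent.Results.MP_a7c6c4_al.DiophantineAnyField
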