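import Mathlib
import Pool.Agent.Helper793_Bricks.PBasis
import Pool.Agent.Helper793_Bricks.Cat
import Pool.Agent.Helper389_End.Pair

set_option autoImplicit false

open CategoryTheory Pool.Agent.Helper391_TT Pool.Agent.Helper793Bricks

namespace Pool.Agent.Results.MP_a7c6c4_al.TauRigidGrowth

variable {K A : Type} [Field K] [Ring A] [Algebra K A]

/-- a nonzero `τ`-rigid module -/
def Rig (V : FM K A) : Prop := IsTauRigid V ∧ Nontrivial V.X

/-- `dim V` -/
noncomputable def dm (V : FM K A) : ℕ := Module.finrank K V.X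

/-- `dim Hom(V, W)` -/
noncomputable def hom (V W : FM K A) : ℕ := Module.finrank K (V.X →ₗ[A] W.X)

/-- `dim Hom(W, τ V)` is equal to `d`; here `τ V` is computed from a minimal presentation `S` of
`V`, and `M` is a module isomorphic to `τ V` -/
def HomTau (W V : FM K A) (d : ℕ) : Prop :=
  ∃ (S : MinPres V) (M : FM K A), Nonempty (M.X ≃ₗ[A] S.tau) ∧ d = hom W M

/-- `dim Hom(W, τ V) + c (dim V) (dim W) ≤ dim Hom(V, W)` -/
def Big (c : ℝ) (V W : FM K A) : Prop :=
  ∀ t, HomTau W V t → t + c * dm V * dm W ≤ hom V W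

/-- growth of the spaces of homomorphisms between `τ`-rigid modules of the same colour -/
def Growth (K A : Type) [Field K] [Ring A] [Algebra K A] : Prop :=
  ∃ (c : ℝ) (m : ℕ) (col : FM K A → Fin m), 0 < c ∧
    ∀ V W : FM K A, Rig V → Rig W → col V = col W → Big c V W

theorem homTau_iff {W V : FM K A} {d : ℕ} (h : HomTau W V d) :
    ∃ S : MinPres V, d = Module.finrank K (W.X →ₗ[A] S.tau) := by
  obtain ⟨S, M, ⟨e⟩, rfl⟩ := h
  refine ⟨S, ?_⟩
  refine LinearEquiv.finrank_eq (LinearEquiv.ofBijective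
    { toFun := fun φ => e.toLinearMap ∘ₗ φ
      map_add' := fun φ ψ => LinearMap.comp_add _ _ _
      map_smul' := fun c φ => ?_ : (W.X →ₗ[A] M.X) →ₗ[K] (W.X →ₗ[A] S.tau) } ⟨?_, ?_⟩)
  · ext x : 1
    exact LinearMap.map_smul_of_tower e.toLinearMap c (φ x)
  · intro φ ψ h
    ext x : 1
    exact e.injective (LinearMap.congr_fun h x)
  · intro ψ
    refine ⟨e.symm.toLinearMap ∘ₗ ψ, ?_⟩
    ext x : 1
    exact e.apply_symm_apply (ψ x)

/-- Let `A` be a finite-dimensional algebra over an arbitrary field. Either `A` has an infinite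
semibrick, or the nonzero `τ`-rigid `A`-modules can be coloured with finitely many colours such that
`dim Hom(V, W) ≥ dim Hom(W, τ V) + c (dim V) (dim W)` for all `V`, `W` of the same colour, for one
constant `c > 0`; in particular `dim End(V) ≥ c (dim V)²` for all `τ`-rigid modules `V`. -/
theorem result :
    ∀ (K : Type) [Field K] (A : Type) [Ring A] [Algebra K A] [FiniteDimensional K A],
      (∃ M : ℕ → ModuleCat.{0} A,
          (∀ i, Module.Finite A (M i) ∧ Nontrivial (M i) ∧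
              ∀ f : M i ⟶ M i, f ≠ 0 → IsIso f) ∧
          ∀ i j, i ≠ j → ∀ f : M i ⟶ M j, f = 0) ∨
      Growth K A := by
  intro K _ A _ _ _
  obtain ⟨ι, hι, ⟨B⟩⟩ := exists_projBasis K A
  by_cases h : ∀ v : ι → ℚ, v ≠ 0 → (fun i => (v i : ℝ)) ∈ B.gFan
  · right
    obtain ⟨c, m, f, hc, hf⟩ := Pool.Agent.Helper389_End.colouring B h
    refine ⟨c, m, f, hc, ?_⟩
    rintro V W ⟨hV, nV⟩ ⟨hW, nW⟩ he t ht
    obtain ⟨S, rfl⟩ := homTau_iff ht
    have h3 := hf V W hV hW nV nW he S
    unfold dm hom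
    rw [add_comm]
    exact h3
  · left
    push Not at h
    obtain ⟨v, -, hv⟩ := h
    obtain ⟨M, hM, hM0⟩ := fan_rational B v hv
    exact ⟨M, fun i => ⟨(hM i).1, (isBrick_iff (M i)).mp (hM i).2⟩,
      fun i j hij f => hom_eq_zero (hM0 i j hij) f⟩

end Pool.Agent.Results.MP_a7c6c4_al.TauRigidGrowth
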