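import Mathlib
import Pool.Agent.Helper793_Bricks.Simples

set_option autoImplicit false

open CategoryTheory Pool.Agent.Helper793Bricks

namespace Pool.Agent.Results.MP_a7c6c4_al.TwoSimplesAnyField

/-- Let `K` be a field and `A` a finite-dimensional `K`-algebra with at most two simple modules up
to isomorphism. If there are infinitely many pairwise non-isomorphic finitely generated bricks, then
there is an infinite sequence of finitely generated bricks with all homomorphisms between distinct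
members zero. -/
theorem result :
    ∀ (K : Type) [Field K] (A : Type) [Ring A] [Algebra K A] [FiniteDimensional K A],
      (∃ S₁ S₂ : ModuleCat.{0} A, ∀ T : ModuleCat.{0} A, IsSimpleModule A T →
          Nonempty (T ≅ S₁) ∨ Nonempty (T ≅ S₂)) →
      (∃ M : ℕ → ModuleCat.{0} A,
          (∀ i, Module.Finite A (M i) ∧ Nontrivial (M i) ∧
              ∀ f : M i ⟶ M i, f ≠ 0 → IsIso f) ∧
          ∀ i j, i ≠ j → IsEmpty (M i ≅ M j)) →
      ∃ M : ℕ → ModuleCat.{0} A,
          (∀ i, Module.Finite A (M i) ∧ Nontrivial (M i) ∧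
              ∀ f : M i ⟶ M i, f ≠ 0 → IsIso f) ∧
          ∀ i j, i ≠ j → ∀ f : M i ⟶ M j, f = 0 := by
  intro K _ A _ _ _ ⟨S₁, S₂, hS⟩ ⟨M, hM, hni⟩
  have hS' : ∀ (T : Type) [AddCommGroup T] [Module A T] [IsSimpleModule A T],
      Nonempty (T ≃ₗ[A] S₁) ∨ Nonempty (T ≃ₗ[A] S₂) := by
    intro T _ _ hT
    rcases hS (ModuleCat.of A T) hT with ⟨⟨e⟩⟩ | ⟨⟨e⟩⟩
    · exact Or.inl ⟨e.toLinearEquiv⟩
    · exact Or.inr ⟨e.toLinearEquiv⟩
  have hall : (allBr A).Infinite := by
    have hinj : Function.Injective (fun i => Quotient.mk (isoSetoid A) (M i)) := by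
      intro i j hij
      by_contra hne
      obtain ⟨e⟩ : (isoSetoid A).r (M i) (M j) := Quotient.exact hij
      exact (hni i j hne).false e.toModuleIso
    refine Set.infinite_of_injective_forall_mem hinj (fun i => ?_)
    exact ⟨M i, rfl, (hM i).1, (isBrick_iff (M i)).mpr (hM i).2⟩
  rcases finite_or_infinite K with hK | hK
  · obtain ⟨N, hN, hN0⟩ := semibrick_two_finite (K := K) S₁ S₂ hS' hall
    exact ⟨N, fun i => ⟨(hN i).1, (isBrick_iff (N i)).mp (hN i).2⟩,
      fun i j hij f => hom_eq_zero (hN0 i j hij) f⟩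
  · have hinf : ∃ d, (BrCls.{0, 0} A d).Infinite := by
      by_contra hcon
      push Not at hcon
      exact hall (rank_two (K := K) S₁ S₂ hS' hcon)
    obtain ⟨d, hd⟩ := hinf
    obtain ⟨d', -, N, hN, hN0⟩ := exists_semibrick_of_infinite d hd
    refine ⟨N, fun i => ?_, fun i j hij f => hom_eq_zero (hN0 i j hij) f⟩
    obtain ⟨h1, h2, h3, h4⟩ := hN i
    exact ⟨inferInstance, (isBrick_iff (N i)).mp h1⟩

end Pool.Agent.Results.MP_a7c6c4_al.TwoSimplesAnyField
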